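import Pool.Agent.helper55.GL.Spec

set_option autoImplicit false

namespace Pool.Agent.GL

open SimpleGraph

/-- the host graph with additional isolated vertices -/
def LK3_G {X Y : Type} (Z : Type) (R : X → Y → Prop) : SimpleGraph ((X ⊕ Y) ⊕ Z) :=
  SimpleGraph.fromRel (fun a b : (X ⊕ Y) ⊕ Z =>
    ∃ x y, a = Sum.inl (Sum.inl x) ∧ b = Sum.inl (Sum.inr y) ∧ R x y)

theorem LK3_adj {X Y : Type} (Z : Type) (R : X → Y → Prop) (a b : (X ⊕ Y) ⊕ Z) :
    (LK3_G Z R).Adj a b ↔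
      (∃ x y, a = Sum.inl (Sum.inl x) ∧ b = Sum.inl (Sum.inr y) ∧ R x y) ∨
      (∃ x y, b = Sum.inl (Sum.inl x) ∧ a = Sum.inl (Sum.inr y) ∧ R x y) := by
  rw [LK3_G, SimpleGraph.fromRel_adj]
  constructor
  · rintro ⟨-, h⟩
    exact h
  · intro h
    refine ⟨?_, h⟩
    rintro rfl
    rcases h with ⟨x, y, h1, h2, -⟩ | ⟨x, y, h1, h2, -⟩
    · rw [h1] at h2
      simp at h2
    · rw [h1] at h2
      simp at h2

theorem LK3_free {X Y : Type} (Z : Type) (R : X → Y → Prop)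
    (h : ¬ ∃ (f : Fin 3 → X) (g : Fin 3 → Y), Function.Injective f ∧ Function.Injective g ∧
      ∀ i j, R (f i) (g j)) :
    (completeBipartiteGraph (Fin 3) (Fin 3)).Free (LK3_G Z R) := by
  rintro ⟨φ⟩
  have hadj : ∀ i j : Fin 3, (LK3_G Z R).Adj (φ (Sum.inl i)) (φ (Sum.inr j)) := by
    intro i j
    apply φ.toHom.map_adj
    simp [completeBipartiteGraph]
  have hinj : Function.Injective φ := φ.injective
  have h00 := hadj 0 0
  rw [LK3_adj] at h00
  rcases h00 with ⟨x0, y0, hx0, hy0, -⟩ | ⟨x0, y0, hy0, hx0, -⟩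
  · -- rows on the left
    have h1 : ∀ j : Fin 3, ∃ y, φ (Sum.inr j) = Sum.inl (Sum.inr y) := by
      intro j
      have h2 := hadj 0 j
      rw [LK3_adj] at h2
      rcases h2 with ⟨x, y, -, h3, -⟩ | ⟨x, y, -, h3, -⟩
      · exact ⟨y, h3⟩
      · rw [hx0] at h3
        simp at h3
    have h2 : ∀ i : Fin 3, ∃ x, φ (Sum.inl i) = Sum.inl (Sum.inl x) := by
      intro i
      have h2 := hadj i 0
      rw [LK3_adj] at h2
      rcases h2 with ⟨x, y, h3, -, -⟩ | ⟨x, y, h3, -, -⟩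
      · exact ⟨x, h3⟩
      · rw [hy0] at h3
        simp at h3
    choose g hg using h1
    choose f hf using h2
    refine h ⟨f, g, ?_, ?_, ?_⟩
    · intro i i' hii
      have h3 : φ (Sum.inl i) = φ (Sum.inl i') := by rw [hf, hf, hii]
      exact Sum.inl_injective (hinj h3)
    · intro i i' hii
      have h3 : φ (Sum.inr i) = φ (Sum.inr i') := by rw [hg, hg, hii]
      exact Sum.inr_injective (hinj h3)
    · intro i j
      have h3 := hadj i j
      rw [LK3_adj, hf, hg] at h3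
      rcases h3 with ⟨x, y, h4, h5, h6⟩ | ⟨x, y, h4, h5, h6⟩
      · have e1 : f i = x := by simpa using h4
        have e2 : g j = y := by simpa using h5
        rw [e1, e2]; exact h6
      · simp at h4
  · -- rows on the right
    have h1 : ∀ j : Fin 3, ∃ x, φ (Sum.inr j) = Sum.inl (Sum.inl x) := by
      intro j
      have h2 := hadj 0 j
      rw [LK3_adj] at h2
      rcases h2 with ⟨x, y, h3, -, -⟩ | ⟨x, y, h3, -, -⟩
      · rw [hx0] at h3
        simp at h3
      · exact ⟨x, h3⟩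
    have h2 : ∀ i : Fin 3, ∃ y, φ (Sum.inl i) = Sum.inl (Sum.inr y) := by
      intro i
      have h2 := hadj i 0
      rw [LK3_adj] at h2
      rcases h2 with ⟨x, y, -, h3, -⟩ | ⟨x, y, -, h3, -⟩
      · rw [hy0] at h3
        simp at h3
      · exact ⟨y, h3⟩
    choose f hf using h1
    choose g hg using h2
    refine h ⟨f, g, ?_, ?_, ?_⟩
    · intro i i' hii
      have h3 : φ (Sum.inr i) = φ (Sum.inr i') := by rw [hf, hf, hii]
      exact Sum.inr_injective (hinj h3)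
    · intro i i' hii
      have h3 : φ (Sum.inl i) = φ (Sum.inl i') := by rw [hg, hg, hii]
      exact Sum.inl_injective (hinj h3)
    · intro i j
      have h3 := hadj j i
      rw [LK3_adj, hf, hg] at h3
      rcases h3 with ⟨x, y, h4, h5, h6⟩ | ⟨x, y, h4, h5, h6⟩
      · simp at h4
      · have e1 : f i = x := by simpa using h4
        have e2 : g j = y := by simpa using h5
        rw [e1, e2]; exact h6

open Classical in
theorem LK3_edges {X Y : Type} [Fintype X] [Fintype Y] (Z : Type) [Fintype Z] (R : X → Y → Prop)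
    (d : ℕ) (hd : ∀ x, Nat.card {y // R x y} = d) :
    Fintype.card X * d ≤ (LK3_G Z R).edgeFinset.card := by
  have h1 : ∑ x : X, Nat.card {y // R x y} = Fintype.card X * d := by
    rw [Finset.sum_congr rfl (fun x _ => hd x), Finset.sum_const, Finset.card_univ, smul_eq_mul]
  have h2 : (Finset.univ.filter (fun q : X × Y => R q.1 q.2)).card =
      ∑ x : X, Nat.card {y // R x y} := by
    rw [Finset.card_filter, Fintype.sum_prod_type]
    refine Finset.sum_congr rfl fun x _ => ?_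
    rw [← Finset.card_filter, Nat.subtype_card (Finset.univ.filter (fun y => R x y))]
    intro y
    simp
  rw [← h1, ← h2]
  refine Finset.card_le_card_of_injOn
    (fun q => s(Sum.inl (Sum.inl q.1), Sum.inl (Sum.inr q.2))) ?_ ?_
  · intro q hq
    simp only [Finset.coe_filter, Finset.mem_univ, true_and, Set.mem_ofPred_eq] at hq
    simp only [coe_edgeFinset, mem_edgeSet]
    rw [LK3_adj]
    exact Or.inl ⟨q.1, q.2, rfl, rfl, hq⟩
  · rintro ⟨x, y⟩ - ⟨x', y'⟩ - hq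
    simpa using hq

theorem LK3_pos {V : Type} (G : SimpleGraph V) {_ : Fintype G.edgeSet} (a b : V)
    (h : G.Adj a b) : 1 ≤ G.edgeFinset.card := by
  rw [Nat.one_le_iff_ne_zero, ← Nat.pos_iff_ne_zero, Finset.card_pos]
  exact ⟨s(a, b), mem_edgeFinset.2 h⟩

open Classical in
theorem LK3_one (n : ℕ) (hn : 2 ≤ n) :
    1 ≤ ex n (completeBipartiteGraph (Fin 3) (Fin 3)) := by
  obtain ⟨m, rfl⟩ : ∃ m, n = m + 2 := ⟨n - 2, by omega⟩
  have h1 : (completeBipartiteGraph (Fin 3) (Fin 3)).Free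
      (SimpleGraph.edge (0 : Fin (m + 2)) 1) := by
    rintro ⟨φ⟩
    have hadj : ∀ i j : Fin 3, (SimpleGraph.edge (0 : Fin (m + 2)) 1).Adj (φ (Sum.inl i))
        (φ (Sum.inr j)) := by
      intro i j
      apply φ.toHom.map_adj
      simp [completeBipartiteGraph]
    have e1 := hadj 0 0
    have e2 := hadj 0 1
    rw [SimpleGraph.edge_adj] at e1 e2
    have hne : φ (Sum.inr 0) = φ (Sum.inr 1) := by
      rcases e1 with ⟨⟨a, b⟩ | ⟨a, b⟩, h⟩ <;> rcases e2 with ⟨⟨a', b'⟩ | ⟨a', b'⟩, h'⟩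
      · rw [b, b']
      · exact absurd (a.symm.trans a') (by simp)
      · exact absurd (a'.symm.trans a) (by simp)
      · rw [b, b']
    have h3 := φ.injective hne
    simp at h3
  have h2 := card_edgeFinset_le_extremalNumber h1
  rw [Fintype.card_fin] at h2
  refine le_trans ?_ h2
  exact LK3_pos _ 0 1 (by rw [SimpleGraph.edge_adj]; simp)

theorem LK3 (hNRM : NRM_stmt) : LK3_stmt := by
  classical
  refine ⟨16 ^ 5 * 8 ^ 3, ?_⟩
  intro n hn
  have hone := LK3_one n hn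
  by_cases hn16 : n < 16
  · calc n ^ 5 ≤ 16 ^ 5 := Nat.pow_le_pow_left hn16.le 5
      _ ≤ 16 ^ 5 * 8 ^ 3 := Nat.le_mul_of_pos_right _ (by norm_num)
      _ ≤ 16 ^ 5 * 8 ^ 3 * ex n (completeBipartiteGraph (Fin 3) (Fin 3)) ^ 3 :=
          Nat.le_mul_of_pos_right _ (by positivity)
  · push Not at hn16
    -- the parameter
    set k : ℕ := Nat.findGreatest (fun k => 16 * k ^ 3 ≤ n) n with hk
    have hk1 : 16 * k ^ 3 ≤ n := by
      have := Nat.findGreatest_spec (P := fun k => 16 * k ^ 3 ≤ n) (n := n) (m := 1) (by omega)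
        (by simpa using hn16)
      exact this
    have hk0 : 1 ≤ k := Nat.le_findGreatest (by omega) (by simpa using hn16)
    have hk2 : n < 16 * (k + 1) ^ 3 := by
      by_contra hcon
      push Not at hcon
      have h3 : k + 1 ≤ n := by nlinarith [sq_nonneg (k + 1), Nat.pos_of_ne_zero (show k ≠ 0 by omega)]
      have := Nat.le_findGreatest (P := fun k => 16 * k ^ 3 ≤ n) h3 hcon
      omega
    obtain ⟨p, hp, hp1, hp2⟩ := Nat.exists_prime_lt_and_le_two_mul k (by omega)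
    obtain ⟨X, Y, _, _, R, hX, hY, hdeg, hno⟩ := hNRM p hp
    have hp2' : 2 ≤ p := hp.two_le
    have hpn : 2 * p ^ 3 ≤ n := by
      calc 2 * p ^ 3 ≤ 2 * (2 * k) ^ 3 := Nat.mul_le_mul_left 2 (Nat.pow_le_pow_left hp2 3)
        _ = 16 * k ^ 3 := by ring
        _ ≤ n := hk1
    have hnp : n ≤ 16 * p ^ 3 := by
      calc n ≤ 16 * (k + 1) ^ 3 := hk2.le
        _ ≤ 16 * p ^ 3 := Nat.mul_le_mul_left 16 (Nat.pow_le_pow_left hp1 3)
    have hcard0 : p ^ 2 * (p - 1) + p ^ 2 * (p - 1) ≤ n := by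
      have h1 : p ^ 2 * (p - 1) ≤ p ^ 2 * p := Nat.mul_le_mul_left _ (Nat.sub_le _ _)
      have h2 : p ^ 2 * p = p ^ 3 := by ring
      omega
    have hcard : Fintype.card ((X ⊕ Y) ⊕ Fin (n - (p ^ 2 * (p - 1) + p ^ 2 * (p - 1)))) = n := by
      rw [Fintype.card_sum, Fintype.card_sum, hX, hY, Fintype.card_fin]
      omega
    have h1 := card_edgeFinset_le_extremalNumber (LK3_free
      (Fin (n - (p ^ 2 * (p - 1) + p ^ 2 * (p - 1)))) R hno)
    rw [hcard] at h1
    have h2 := LK3_edges (Fin (n - (p ^ 2 * (p - 1) + p ^ 2 * (p - 1)))) R (p ^ 2 - 1) hdeg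
    rw [hX] at h2
    have h3 : p ^ 2 * (p - 1) * (p ^ 2 - 1) ≤ ex n (completeBipartiteGraph (Fin 3) (Fin 3)) :=
      h2.trans h1
    have h4 : p ^ 5 ≤ 8 * (p ^ 2 * (p - 1) * (p ^ 2 - 1)) := by
      obtain ⟨q, rfl⟩ : ∃ q, p = q + 1 := ⟨p - 1, by omega⟩
      have e1 : q + 1 - 1 = q := by omega
      have e2 : (q + 1) ^ 2 - 1 = q ^ 2 + 2 * q := by
        have : (q + 1) ^ 2 = q ^ 2 + 2 * q + 1 := by ring
        omega
      rw [e1, e2]
      have hq : 1 ≤ q := by omega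
      have e3 : (q + 1) ^ 3 ≤ 8 * (q * (q ^ 2 + 2 * q)) := by
        obtain ⟨t, rfl⟩ : ∃ t, q = t + 1 := ⟨q - 1, by omega⟩
        have e4 : 8 * ((t + 1) * ((t + 1) ^ 2 + 2 * (t + 1))) =
            (t + 1 + 1) ^ 3 + (7 * t ^ 3 + 34 * t ^ 2 + 44 * t + 16) := by ring
        omega
      calc (q + 1) ^ 5 = (q + 1) ^ 2 * (q + 1) ^ 3 := by ring
        _ ≤ (q + 1) ^ 2 * (8 * (q * (q ^ 2 + 2 * q))) := Nat.mul_le_mul_left _ e3
        _ = 8 * ((q + 1) ^ 2 * q * (q ^ 2 + 2 * q)) := by ring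
    have h5 : p ^ 5 ≤ 8 * ex n (completeBipartiteGraph (Fin 3) (Fin 3)) :=
      h4.trans (Nat.mul_le_mul_left 8 h3)
    calc n ^ 5 ≤ (16 * p ^ 3) ^ 5 := Nat.pow_le_pow_left hnp 5
      _ = 16 ^ 5 * (p ^ 5) ^ 3 := by ring
      _ ≤ 16 ^ 5 * (8 * ex n (completeBipartiteGraph (Fin 3) (Fin 3))) ^ 3 :=
          Nat.mul_le_mul_left _ (Nat.pow_le_pow_left h5 3)
      _ = 16 ^ 5 * 8 ^ 3 * ex n (completeBipartiteGraph (Fin 3) (Fin 3)) ^ 3 := by ring

end Pool.Agent.GL
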